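import Pool.Agent.H95.GY.Targets

/-! STO: from the retraction to the twisted product. -/

set_option autoImplicit false

open Filter Topology MeasureTheory Set
open scoped Pointwise

universe u v

namespace Pool.Agent.H47.GY

open Pool.Agent.H95.GY

theorem pf_STO : T_STO.{u, v} := by
  classical
  intro G _ _ _ _ _ K _ hR S _ _ _ _
  obtain ⟨U, ρ, hU, hKU, hρ, hρK, hρ1, hinv⟩ := hR
  set κ : G → K := fun g => if h : ρ g ∈ K then ⟨ρ g, h⟩ else 1 with hκdef
  have hκ : ∀ g ∈ U, ((κ g : K) : G) = ρ g := by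
    intro g hg
    simp only [hκdef]
    rw [dif_pos (hρK g hg)]
  have hκc : ContinuousOn κ U := by
    rw [Topology.IsInducing.subtypeVal.continuousOn_iff]
    exact hρ.congr fun g hg => hκ g hg
  have hUl : ∀ (k : K), ∀ g ∈ U, (k : G) * g ∈ U ∧ ρ ((k : G) * g) = k * ρ g := by
    intro k g hg
    have h1 := hinv k k.2 1 K.one_mem g hg
    rwa [mul_one, mul_one] at h1
  have hUr : ∀ (k : K), ∀ g ∈ U, g * (k : G) ∈ U ∧ ρ (g * (k : G)) = ρ g * k := by
    intro k g hg
    have h1 := hinv 1 K.one_mem k k.2 g hg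
    rwa [one_mul, one_mul] at h1
  have hUr' : ∀ (k : K) (g : G), g * (k : G)⁻¹ ∈ U ↔ g ∈ U := by
    intro k g
    constructor
    · intro h
      have h1 := (hUr k _ h).1
      rwa [inv_mul_cancel_right] at h1
    · intro h
      exact (hUr k⁻¹ g h).1
  set f : G × S → Twisted K S := fun p =>
    if p.1 ∈ U then Twisted.mk K S (1, κ p.1 • p.2) else Twisted.mk K S p with hf
  have hfr : ∀ p q : G × S, (twistedSetoid K S).r p q → f p = f q := by
    rintro p q ⟨k, rfl⟩
    by_cases hp : p.1 ∈ U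
    · have hq : p.1 * (k : G)⁻¹ ∈ U := (hUr' k _).2 hp
      simp only [hf]
      rw [if_pos hp, if_pos hq]
      congr 2
      rw [smul_smul]
      congr 1
      apply Subtype.ext
      rw [Subgroup.coe_mul, hκ _ hq, hκ _ hp]
      have h1 := (hUr k⁻¹ _ hp).2
      rw [Subgroup.coe_inv] at h1
      rw [h1, inv_mul_cancel_right]
    · have hq : ¬ p.1 * (k : G)⁻¹ ∈ U := fun h => hp ((hUr' k _).1 h)
      simp only [hf]
      rw [if_neg hp, if_neg hq]
      exact Twisted.mk_eq.2 ⟨k, rfl⟩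
  set r : Twisted K S → Twisted K S := Quotient.lift f hfr with hr
  have hrmk : ∀ p, r (Twisted.mk K S p) = f p := fun p => rfl
  have hrU : ∀ g ∈ U, ∀ s, r (Twisted.mk K S (g, s)) = Twisted.mk K S (1, κ g • s) := by
    intro g hg s
    rw [hrmk]
    simp only [hf]
    rw [if_pos hg]
  set UU : Set (Twisted K S) := Twisted.mk K S '' (U ×ˢ univ) with hUU
  have hsmul : ∀ (k : K) (p : G × S), k • Twisted.mk K S p = Twisted.mk K S ((k : G) * p.1, p.2) :=
    fun k p => rfl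
  refine ⟨UU, Twisted.isOpenMap_mk K S _ (hU.prod isOpen_univ), ?_, ?_, r, ?_, ?_, ?_, ?_⟩
  · rintro _ ⟨s, rfl⟩
    exact ⟨(1, s), ⟨hKU K.one_mem, mem_univ _⟩, rfl⟩
  · rintro k _ ⟨⟨g, s⟩, ⟨hg, -⟩, rfl⟩
    rw [hsmul]
    exact ⟨_, ⟨(hUl k g hg).1, mem_univ _⟩, rfl⟩
  · rintro _ ⟨⟨g, s⟩, ⟨hg, -⟩, rfl⟩
    apply ContinuousAt.continuousWithinAt
    have hq : IsOpenQuotientMap (Twisted.mk K S) :=
      ⟨Twisted.mk_surjective K S, Twisted.continuous_mk K S, Twisted.isOpenMap_mk K S⟩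
    rw [← hq.continuousAt_comp_iff]
    have h1 : ContinuousAt (fun p : G × S => Twisted.mk K S (1, κ p.1 • p.2)) (g, s) := by
      refine (Twisted.continuous_mk K S).continuousAt.comp ?_
      refine continuousAt_const.prodMk ?_
      have h2 : ContinuousAt κ g := hκc.continuousAt (hU.mem_nhds hg)
      exact (h2.comp (f := fun p : G × S => p.1) (x := (g, s)) continuousAt_fst).smul
        continuousAt_snd
    refine h1.congr ?_
    have h3 : ∀ᶠ p : G × S in 𝓝 (g, s), p.1 ∈ U :=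
      continuousAt_fst.eventually (hU.mem_nhds hg)
    filter_upwards [h3] with p hp
    exact (hrU p.1 hp p.2).symm
  · rintro _ ⟨⟨g, s⟩, ⟨hg, -⟩, rfl⟩
    rw [hrU g hg s]
    exact ⟨κ g • s, rfl⟩
  · rintro k _ ⟨⟨g, s⟩, ⟨hg, -⟩, rfl⟩
    have h1 := hUl k g hg
    rw [hsmul, hrU _ h1.1, hrU g hg s, hsmul]
    have h2 : κ ((k : G) * g) = k * κ g := by
      apply Subtype.ext
      rw [Subgroup.coe_mul, hκ _ h1.1, hκ _ hg]
      exact h1.2
    rw [h2]
    symm
    refine Twisted.mk_eq.2 ⟨k, ?_⟩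
    simp only [mul_one, mul_inv_cancel, mul_smul]
  · rintro _ ⟨s, rfl⟩
    have h1 : (1 : G) ∈ U := hKU K.one_mem
    have h2 : κ 1 = 1 := by
      apply Subtype.ext
      rw [hκ _ h1, hρ1 1 K.one_mem]
      rfl
    have h3 : r (Twisted.mk K S (1, s)) = Twisted.mk K S (1, s) := by
      rw [hrU 1 h1 s, h2, one_smul]
    exact h3

end Pool.Agent.H47.GY
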