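import Pool.Agent.H95.GY.Targets

/-! TUB: tubular neighbourhood of a compact group of orthogonal matrices. -/

set_option autoImplicit false

open Filter Topology MeasureTheory Set
open scoped Pointwise Matrix.Norms.L2Operator

universe u v

namespace Pool.Agent.H47.GY

open Pool.Agent.H95.GY

/-- the trace form -/
noncomputable def tf (m : ℕ) : LinearMap.BilinForm ℝ (Matrix (Fin m) (Fin m) ℝ) :=
  LinearMap.mk₂ ℝ (fun A B => (A.transpose * B).trace)
    (fun A A' B => by rw [Matrix.transpose_add, add_mul, Matrix.trace_add])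
    (fun c A B => by rw [Matrix.transpose_smul, smul_mul_assoc, Matrix.trace_smul])
    (fun A B B' => by rw [mul_add, Matrix.trace_add])
    (fun c A B => by rw [mul_smul_comm, Matrix.trace_smul])

theorem tf_apply (m : ℕ) (A B : Matrix (Fin m) (Fin m) ℝ) :
    tf m A B = (A.transpose * B).trace := rfl

theorem tf_symm (m : ℕ) (A B : Matrix (Fin m) (Fin m) ℝ) : tf m A B = tf m B A := by
  rw [tf_apply, tf_apply, ← Matrix.trace_transpose, Matrix.transpose_mul,
    Matrix.transpose_transpose]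

theorem tf_self (m : ℕ) (A : Matrix (Fin m) (Fin m) ℝ) (h : tf m A A = 0) : A = 0 := by
  rw [tf_apply] at h
  have h1 : ∑ j, ∑ i, A i j * A i j = 0 := by
    simpa [Matrix.trace, Matrix.mul_apply, Matrix.diag] using h
  have h2 : ∀ j, ∑ i, A i j * A i j = 0 := by
    intro j
    exact (Finset.sum_eq_zero_iff_of_nonneg fun j _ =>
      Finset.sum_nonneg fun i _ => mul_self_nonneg _).1 h1 j (Finset.mem_univ j)
  ext i j
  have h3 := (Finset.sum_eq_zero_iff_of_nonneg fun i _ => mul_self_nonneg _).1 (h2 j) i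
    (Finset.mem_univ i)
  exact mul_self_eq_zero.1 h3

theorem tub_compl (m : ℕ) (L : Submodule ℝ (Matrix (Fin m) (Fin m) ℝ)) :
    IsCompl L ((tf m).orthogonal L) := by
  have hrefl : (tf m).IsRefl := by
    intro A B h
    rw [tf_symm]
    exact h
  rw [LinearMap.BilinForm.isCompl_orthogonal_iff_disjoint hrefl, Submodule.disjoint_def]
  intro A hA hA'
  exact tf_self m A (hA' A hA)

theorem norm_le_one_of_orth {m : ℕ} (U : Matrix (Fin m) (Fin m) ℝ) (h : U.transpose * U = 1) :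
    ‖U‖ ≤ 1 ∧ ‖U.transpose‖ ≤ 1 := by
  have h1 : ‖(1 : Matrix (Fin m) (Fin m) ℝ)‖ ≤ 1 := by
    rcases subsingleton_or_nontrivial (Matrix (Fin m) (Fin m) ℝ) with h | h
    · rw [Subsingleton.elim (1 : Matrix (Fin m) (Fin m) ℝ) 0, norm_zero]
      exact zero_le_one
    · exact (CStarRing.norm_one).le
  have h2 : ‖U‖ * ‖U‖ ≤ 1 := by
    rw [← Matrix.l2_opNorm_conjTranspose_mul_self]
    have h3 : U.conjTranspose = U.transpose := by
      ext i j; simp
    rw [h3, h]
    exact h1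
  have h4 : ‖U‖ ≤ 1 := by
    nlinarith only [h2, norm_nonneg U]
  refine ⟨h4, ?_⟩
  have h3 : U.transpose = U.conjTranspose := by
    ext i j; simp
  rw [h3, Matrix.l2_opNorm_conjTranspose]
  exact h4

theorem tub_deriv {m : ℕ}
    (p : Matrix (Fin m) (Fin m) ℝ →L[ℝ] Matrix (Fin m) (Fin m) ℝ) :
    HasStrictFDerivAt (fun X : Matrix (Fin m) (Fin m) ℝ =>
      NormedSpace.exp (p X) * (1 + (X - p X)))
      ((ContinuousLinearEquiv.refl ℝ (Matrix (Fin m) (Fin m) ℝ) :
        Matrix (Fin m) (Fin m) ℝ ≃L[ℝ] Matrix (Fin m) (Fin m) ℝ) :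
        Matrix (Fin m) (Fin m) ℝ →L[ℝ] Matrix (Fin m) (Fin m) ℝ) 0 := by
  have h0 : HasStrictFDerivAt (NormedSpace.exp : Matrix (Fin m) (Fin m) ℝ → _)
      (1 : Matrix (Fin m) (Fin m) ℝ →L[ℝ] Matrix (Fin m) (Fin m) ℝ) (p 0) := by
    rw [map_zero]
    exact hasStrictFDerivAt_exp_zero
  have h1 := h0.comp (0 : Matrix (Fin m) (Fin m) ℝ) p.hasStrictFDerivAt
  have h2 : HasStrictFDerivAt (fun X : Matrix (Fin m) (Fin m) ℝ => 1 + (X - p X))
      (ContinuousLinearMap.id ℝ _ - p) 0 :=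
    ((hasStrictFDerivAt_id _).sub p.hasStrictFDerivAt).const_add _
  have h3 := h1.mul' h2
  refine h3.congr_fderiv ?_
  ext1 X
  simp

theorem pf_TUB (hCAR : T_CAR.{u}) : T_TUB.{u} := by
  classical
  intro K _ _ _ _ _ m σ hσ hort
  obtain ⟨L, hL1, hL2, hL3⟩ := hCAR K m σ hσ hort
  -- basic facts on `σ`
  have hort' : ∀ g, σ g * (σ g).transpose = 1 := fun g => mul_eq_one_comm.1 (hort g)
  have hinv : ∀ g, σ g⁻¹ = (σ g).transpose := by
    intro g
    have h1 : σ g⁻¹ * σ g = 1 := by rw [← map_mul, inv_mul_cancel, map_one]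
    calc σ g⁻¹ = σ g⁻¹ * (σ g * (σ g).transpose) := by rw [hort' g, mul_one]
      _ = (σ g).transpose := by rw [← mul_assoc, h1, one_mul]
  have hn1 : ∀ g, ‖σ g‖ ≤ 1 := fun g => (norm_le_one_of_orth _ (hort g)).1
  have hn2 : ∀ g, ‖(σ g).transpose‖ ≤ 1 := fun g => (norm_le_one_of_orth _ (hort g)).2
  -- the complement
  set L' := (tf m).orthogonal L with hL'
  have hc : IsCompl L L' := tub_compl m L
  have hL'inv : ∀ g, ∀ B ∈ L', (σ g).transpose * B * σ g ∈ L' := by
    intro g B hB A hA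
    have h1 := hB _ (hL2 g A hA)
    change tf m A ((σ g).transpose * B * σ g) = 0
    change tf m (σ g * A * (σ g).transpose) B = 0 at h1
    rw [tf_apply] at h1 ⊢
    rw [← h1, Matrix.transpose_mul, Matrix.transpose_mul, Matrix.transpose_transpose,
      ← mul_assoc, ← mul_assoc, Matrix.trace_mul_comm]
    simp only [mul_assoc]
  set p : Matrix (Fin m) (Fin m) ℝ →L[ℝ] Matrix (Fin m) (Fin m) ℝ :=
    LinearMap.toContinuousLinearMap (L.projection L' hc) with hp
  have hpL : ∀ A ∈ L, p A = A := fun A hA => Submodule.projection_apply_of_mem_left hc hA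
  have hpL' : ∀ B ∈ L', p B = 0 := fun B hB => (Submodule.projection_apply_eq_zero_iff hc).2 hB
  have hpmem : ∀ X, p X ∈ L := fun X => Submodule.projection_apply_mem hc X
  have hpsub : ∀ X, X - p X ∈ L' := by
    intro X
    refine (Submodule.projection_apply_eq_zero_iff hc).1 ?_
    have h1 : p (X - p X) = 0 := by
      rw [map_sub, hpL _ (hpmem X), sub_self]
    exact h1
  set Ψ : Matrix (Fin m) (Fin m) ℝ → Matrix (Fin m) (Fin m) ℝ :=
    fun X => NormedSpace.exp (p X) * (1 + (X - p X)) with hΨ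
  have hd := tub_deriv p
  set Φ := hd.toOpenPartialHomeomorph Ψ with hΦ
  have hΦcoe : ∀ X, Φ X = Ψ X := fun X => rfl
  have h0s : (0 : Matrix (Fin m) (Fin m) ℝ) ∈ Φ.source := hd.mem_toOpenPartialHomeomorph_source
  have hΨAB : ∀ A ∈ L, ∀ B ∈ L', Ψ (A + B) = NormedSpace.exp A * (1 + B) := by
    intro A hA B hB
    have h1 : p (A + B) = A := by rw [map_add, hpL A hA, hpL' B hB, add_zero]
    simp only [hΨ]
    rw [h1, add_sub_cancel_left]
  have hΨB : ∀ B ∈ L', Ψ B = 1 + B := by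
    intro B hB
    have h1 := hΨAB 0 L.zero_mem B hB
    rwa [zero_add, NormedSpace.exp_zero, one_mul] at h1
  obtain ⟨ε, hε, hball⟩ := Metric.isOpen_iff.1 Φ.open_source 0 h0s
  obtain ⟨V, hV, hVW⟩ := hL3 (Metric.ball 0 (ε / 2)) (Metric.ball_mem_nhds _ (by positivity))
  obtain ⟨δ, hδ, hδV⟩ := Metric.mem_nhds_iff.1 hV
  set b : ℝ := min (ε / 2) (δ / 2) with hb
  have hb0 : 0 < b := by positivity
  have hbε : b ≤ ε / 2 := min_le_left _ _
  have hbδ : b ≤ δ / 2 := min_le_right _ _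
  -- uniqueness
  have huniq : ∀ g : K, ∀ B ∈ L', ∀ B' ∈ L', ‖B‖ < b → ‖B'‖ < b → σ g * (1 + B) = 1 + B' →
      σ g = 1 := by
    intro g B hB B' hB' hBb hBb' he
    have h1 : σ g - 1 = B' - σ g * B := by
      rw [mul_add, mul_one] at he
      have h2 : σ g = 1 + B' - σ g * B := eq_sub_of_add_eq he
      calc σ g - 1 = (1 + B' - σ g * B) - 1 := by rw [← h2]
        _ = B' - σ g * B := by abel
    have h2 : σ g ∈ V := by
      apply hδV
      rw [Metric.mem_ball, dist_eq_norm, h1]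
      have h3 : ‖σ g * B‖ ≤ 1 * ‖B‖ :=
        (Matrix.l2_opNorm_mul _ _).trans (mul_le_mul_of_nonneg_right (hn1 g) (norm_nonneg _))
      have h4 := norm_sub_le B' (σ g * B)
      linarith only [h3, h4, hBb, hBb', hbδ]
    obtain ⟨A, hA, hAW, hAe⟩ := hVW g h2
    have hAn : ‖A‖ < ε / 2 := by simpa using hAW
    have h3 : Ψ (A + B) = Ψ B' := by
      rw [hΨAB A hA B hB, hΨB B' hB', ← hAe, he]
    have h4 : A + B ∈ Φ.source := by
      apply hball
      rw [Metric.mem_ball, dist_zero_right]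
      have h5 := norm_add_le A B
      linarith only [h5, hAn, hBb, hbε]
    have h5 : B' ∈ Φ.source := by
      apply hball
      rw [Metric.mem_ball, dist_zero_right]
      linarith only [hBb', hbε, hε]
    have h6 : A + B = B' := Φ.injOn h4 h5 h3
    have h7 : A = 0 := by
      have h8 : A ∈ L' := by
        have h9 : A = B' - B := by rw [← h6]; abel
        rw [h9]
        exact L'.sub_mem hB' hB
      exact (Submodule.disjoint_def.1 hc.disjoint) A hA h8
    rw [hAe, h7, NormedSpace.exp_zero]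
  set T : Set (Matrix (Fin m) (Fin m) ℝ) :=
    {M | ∃ k : K, ∃ B ∈ L', ‖B‖ < b ∧ M = σ k * (1 + B)} with hT
  set r : Matrix (Fin m) (Fin m) ℝ → Matrix (Fin m) (Fin m) ℝ := fun M =>
    if h : ∃ k : K, ∃ B ∈ L', ‖B‖ < b ∧ M = σ k * (1 + B) then σ h.choose else M with hr
  have hreq : ∀ k : K, ∀ B ∈ L', ‖B‖ < b → r (σ k * (1 + B)) = σ k := by
    intro k B hB hBb
    have hex : ∃ k' : K, ∃ B' ∈ L', ‖B'‖ < b ∧ σ k * (1 + B) = σ k' * (1 + B') :=
      ⟨k, B, hB, hBb, rfl⟩
    have h1 : r (σ k * (1 + B)) = σ hex.choose := by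
      simp only [hr]
      rw [dif_pos hex]
    rw [h1]
    obtain ⟨B', hB', hBb', he⟩ := hex.choose_spec
    generalize hex.choose = j at he ⊢
    have h2 : σ (j⁻¹ * k) = 1 := by
      refine huniq _ B hB B' hB' hBb hBb' ?_
      rw [map_mul, mul_assoc, he, ← mul_assoc, ← map_mul, inv_mul_cancel, map_one, one_mul]
    have h3 : σ (j * (j⁻¹ * k)) = σ j * 1 := by
      rw [map_mul, h2]
    rw [mul_inv_cancel_left, mul_one] at h3
    exact h3.symm
  -- the local description
  have hloc : ∀ k : K, ∀ B₀ ∈ L', ‖B₀‖ < b → ∃ R : Matrix (Fin m) (Fin m) ℝ →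
      Matrix (Fin m) (Fin m) ℝ, ContinuousAt R (σ k * (1 + B₀)) ∧
      ∀ᶠ M in 𝓝 (σ k * (1 + B₀)), M ∈ T ∧ r M = R M := by
    intro k B₀ hB₀ hB₀b
    have hB₀s : B₀ ∈ Φ.source := by
      apply hball
      rw [Metric.mem_ball, dist_zero_right]
      linarith only [hB₀b, hbε, hε]
    have h1 : (σ k).transpose * (σ k * (1 + B₀)) = Φ B₀ := by
      rw [← mul_assoc, hort k, one_mul, hΦcoe, hΨB B₀ hB₀]
    have h2 : Φ B₀ ∈ Φ.target := Φ.map_source hB₀s
    have hc1 : ContinuousAt (fun M => (σ k).transpose * M) (σ k * (1 + B₀)) :=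
      (continuous_const.mul continuous_id).continuousAt
    have hc2 : ContinuousAt (fun M => Φ.symm ((σ k).transpose * M)) (σ k * (1 + B₀)) := by
      refine ContinuousAt.comp (g := Φ.symm) ?_ hc1
      rw [h1]
      exact Φ.continuousAt_symm h2
    have hX0 : Φ.symm ((σ k).transpose * (σ k * (1 + B₀))) = B₀ := by
      rw [h1]
      exact Φ.left_inv hB₀s
    have hc3 : ContinuousAt (fun M => p (Φ.symm ((σ k).transpose * M))) (σ k * (1 + B₀)) :=
      p.continuous.continuousAt.comp hc2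
    refine ⟨fun M => σ k * NormedSpace.exp (p (Φ.symm ((σ k).transpose * M))), ?_, ?_⟩
    · refine continuousAt_const.mul ?_
      refine ContinuousAt.comp (g := NormedSpace.exp) ?_ hc3
      let _ : NormedAlgebra ℚ (Matrix (Fin m) (Fin m) ℝ) := NormedAlgebra.restrictScalars ℚ ℝ _
      exact (NormedSpace.exp_continuous).continuousAt
    · have h1' : (fun M => (σ k).transpose * M) (σ k * (1 + B₀)) = Φ B₀ := h1
      have h3 : ∀ᶠ M in 𝓝 (σ k * (1 + B₀)), (σ k).transpose * M ∈ Φ.target :=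
        hc1.eventually (by
          rw [h1']
          exact Φ.open_target.mem_nhds h2)
      have h4 : ∀ᶠ M in 𝓝 (σ k * (1 + B₀)), ‖Φ.symm ((σ k).transpose * M) -
          p (Φ.symm ((σ k).transpose * M))‖ < b := by
        have h5 : ContinuousAt (fun M => ‖Φ.symm ((σ k).transpose * M) -
          p (Φ.symm ((σ k).transpose * M))‖) (σ k * (1 + B₀)) := (hc2.sub hc3).norm
        refine h5.eventually_lt continuousAt_const ?_
        rw [hX0, hpL' B₀ hB₀, sub_zero]
        exact hB₀b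
      filter_upwards [h3, h4] with M hM1 hM2
      set X := Φ.symm ((σ k).transpose * M) with hX
      have h5 : Ψ X = (σ k).transpose * M := Φ.right_inv hM1
      obtain ⟨l, hl⟩ := hL1 (p X) (hpmem X)
      have h6 : M = σ (k * l) * (1 + (X - p X)) := by
        have h7 : M = σ k * ((σ k).transpose * M) := by
          rw [← mul_assoc, hort' k, one_mul]
        rw [h7, ← h5, map_mul, hl, mul_assoc]
      refine ⟨⟨k * l, _, hpsub X, hM2, h6⟩, ?_⟩
      rw [h6, hreq (k * l) _ (hpsub X) hM2, map_mul, hl]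
  refine ⟨T, r, ?_, ?_, ?_, ?_, ?_, ?_⟩
  · rw [isOpen_iff_mem_nhds]
    rintro _ ⟨k, B, hB, hBb, rfl⟩
    obtain ⟨R, -, hR⟩ := hloc k B hB hBb
    exact hR.mono fun M hM => hM.1
  · intro k
    exact ⟨k, 0, L'.zero_mem, by rwa [norm_zero], by rw [add_zero, mul_one]⟩
  · rintro _ ⟨k, B, hB, hBb, rfl⟩
    obtain ⟨R, hRc, hR⟩ := hloc k B hB hBb
    exact (hRc.congr (hR.mono fun M hM => hM.2.symm)).continuousWithinAt
  · rintro _ ⟨k, B, hB, hBb, rfl⟩
    rw [hreq k B hB hBb]
    exact ⟨k, rfl⟩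
  · intro k
    have h1 := hreq k 0 L'.zero_mem (by rwa [norm_zero])
    rwa [add_zero, mul_one] at h1
  · rintro k l _ ⟨j, B, hB, hBb, rfl⟩
    have h1 : σ k * (σ j * (1 + B)) * σ l = σ (k * j * l) * (1 + (σ l).transpose * B * σ l) := by
      rw [map_mul, map_mul]
      have h2 : σ l * (1 + (σ l).transpose * B * σ l) = (1 + B) * σ l := by
        rw [mul_add, mul_one, ← mul_assoc, ← mul_assoc, hort' l, one_mul, add_mul, one_mul]
      rw [mul_assoc (σ k * σ j), h2]
      simp only [mul_assoc]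
    have h3 : ‖(σ l).transpose * B * σ l‖ < b := by
      refine lt_of_le_of_lt ?_ hBb
      calc ‖(σ l).transpose * B * σ l‖ ≤ ‖(σ l).transpose * B‖ * ‖σ l‖ := Matrix.l2_opNorm_mul _ _
        _ ≤ (‖(σ l).transpose‖ * ‖B‖) * ‖σ l‖ :=
          mul_le_mul_of_nonneg_right (Matrix.l2_opNorm_mul _ _) (norm_nonneg _)
        _ ≤ (1 * ‖B‖) * 1 := by
          refine mul_le_mul ?_ (hn1 l) (norm_nonneg _) (by positivity)
          exact mul_le_mul_of_nonneg_right (hn2 l) (norm_nonneg _)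
        _ = ‖B‖ := by ring
    rw [h1]
    refine ⟨⟨k * j * l, _, hL'inv l B hB, h3, rfl⟩, ?_⟩
    rw [hreq (k * j * l) _ (hL'inv l B hB) h3, hreq j B hB hBb, map_mul, map_mul]

end Pool.Agent.H47.GY
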