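import Pool.Agent.H95.GY.Targets

/-! UP: comparison of powers. -/

set_option autoImplicit false

open Filter Topology MeasureTheory Set
open scoped Pointwise

universe u v

namespace Pool.Agent.H47.GY

open Pool.Agent.H95.GY

theorem pf_UP : T_UP.{u} := by
  intro Q _ _ _ _ ν r C hP g h n
  induction n with
  | zero =>
    intro _
    simp [hP.one]
  | succ n ih =>
    intro hj
    have h1 := ih fun j hjn => hj j (by omega)
    have h2 : g ^ (n + 1) * (h ^ (n + 1))⁻¹ =
        (g ^ n * (g * h⁻¹) * (g ^ n)⁻¹) * (g ^ n * (h ^ n)⁻¹) := by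
      rw [pow_succ g n, pow_succ h n]
      group
    rw [h2]
    have h3 := hP.mul (g ^ n * (g * h⁻¹) * (g ^ n)⁻¹) (g ^ n * (h ^ n)⁻¹)
    have h4 := hP.conj (g * h⁻¹) (g ^ n) (hj n (by omega))
    push_cast
    linarith only [h1, h3, h4]

end Pool.Agent.H47.GY
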